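import Mathlib
import Pool.Agent.V11180.ProdInter

/-!
# MP_1fd3e3_co, Q1: `𝐇_Q` is closed under unions for every infinite index set `Q`
-/

set_option autoImplicit false

namespace Pool.Agent.Results.MP_1fd3e3_co.UnionQ

open Pool.Agent.V11180.ProdInter

universe u v

/-- For every infinite index set `Q` the collection `𝐇_Q` of product intersection sets is closed
under unions. -/
theorem result (Q : Type u) [Infinite Q] (X Y : Set ℕ) (hX : X ∈ HQ.{u, v} Q)
    (hY : Y ∈ HQ.{u, v} Q) : X ∪ Y ∈ HQ.{u, v} Q := by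
  rw [mem_HQ_iff] at hX hY ⊢
  exact ⟨Or.inl hX.1, fun h hh => hh.elim (hX.2 h) (hY.2 h)⟩

end Pool.Agent.Results.MP_1fd3e3_co.UnionQ
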