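import Mathlib
import Pool.Agent.V11180.ProdInter

/-!
# MP_1fd3e3_co, Q2: `𝐇*_ℕ` is closed under unions
-/

set_option autoImplicit false

namespace Pool.Agent.Results.MP_1fd3e3_co.UnionStar

open Pool.Agent.V11180.ProdInter

universe v

/-- The collection `𝐇*_ℕ` of product intersection sets of asymptotically strictly decreasing
sequences is closed under unions. -/
theorem result (X Y : Set ℕ) (hX : X ∈ HstarN.{v}) (hY : Y ∈ HstarN.{v}) :
    X ∪ Y ∈ HstarN.{v} := by
  rw [mem_HstarN_iff] at hX hY ⊢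
  exact ⟨Or.inl hX.1, fun h hh => hh.elim (hX.2 h) (hY.2 h)⟩

end Pool.Agent.Results.MP_1fd3e3_co.UnionStar
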